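import Pool.Agent.X61.RS.Main

/-!
# Generalised Fermat equations with `S`-unit coefficients for random sets `S` of primes

The question asks for finiteness for every finite set `S` of primes. Here `S = S₀ ∪ T`, where `S₀` is
given and `T` is a random set of `k` primes up to `N`. If `k ^ 3 Y ^ 2 ≤ N ^ (1 - δ)`, then for all but a
proportion `N ^ (-δ/4)` of the sets `T` the primes of `T` do not matter: in every `(S₀ ∪ T)`-solution of
`a x ^ p + b y ^ q = c z ^ r` for which the product of the primes outside `S₀ ∪ T` dividing `x y z` is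
at most `Y`, no term is divisible by a prime of `T`. The exponents and the terms are not bounded. For
`Y = 1` (or `x = y = z = 1`) this says that the `(S₀ ∪ T)`-unit equation has only the solutions of the
`S₀`-unit equation.
-/

set_option autoImplicit false

namespace Pool.Agent.Results.MP_be1fae_nt.RandomPrimeSets

open Finset

/-- `S`-solutions of `a x ^ p + b y ^ q = c z ^ r` (the condition `1/p + 1/q + 1/r < 1` is not
imposed) -/
def SSolution (S : Finset ℕ) (a b c x y z : ℤ) (p q r : ℕ) : Prop :=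
  0 < p ∧ 0 < q ∧ 0 < r ∧ a ≠ 0 ∧ b ≠ 0 ∧ c ≠ 0 ∧ x ≠ 0 ∧ y ≠ 0 ∧ z ≠ 0 ∧
    (∀ ℓ : ℕ, ℓ.Prime → (ℓ : ℤ) ∣ a * b * c → ℓ ∈ S) ∧
    Int.gcd ((Int.gcd (a * x) (b * y) : ℕ) : ℤ) (c * z) = 1 ∧
    a * x ^ p + b * y ^ q = c * z ^ r

/-- the product of the primes not in `S` which divide `n` -/
def outer (S : Finset ℕ) (n : ℤ) : ℕ := ∏ ℓ ∈ n.natAbs.primeFactors.filter (fun ℓ => ℓ ∉ S), ℓ

/-- there is an `(S₀ ∪ T)`-solution such that the product of the primes not in `S₀ ∪ T` which divide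
`x y z` is at most `Y` and some prime of `T` divides `a b c x y z` -/
def Exceptional (S₀ T : Finset ℕ) (Y : ℝ) : Prop :=
  ∃ (a b c x y z : ℤ) (p q r : ℕ), SSolution (S₀ ∪ T) a b c x y z p q r ∧
    (outer (S₀ ∪ T) (x * y * z) : ℝ) ≤ Y ∧ ∃ ℓ ∈ T, (ℓ : ℤ) ∣ a * b * c * (x * y * z)

/-- the exceptional `k`-element subsets of `P` -/
def exceptional (S₀ P : Finset ℕ) (k : ℕ) (Y : ℝ) : Set (Finset ℕ) :=
  {T | T ⊆ P ∧ T.card = k ∧ Exceptional S₀ T Y}

theorem exists_pair {u v : ℕ} (hu : 0 < u) (hv : 0 < v) (h : Nat.Coprime u v) :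
    ∃ t : ℕ × ℕ, 0 < t.1 ∧ t.1 ≤ t.2 ∧ Nat.Coprime t.1 t.2 ∧
      Pool.Agent.X61.RS.nn t = u * v * (u + v) := by
  rcases le_total u v with h1 | h1
  · exact ⟨(u, v), hu, h1, h, rfl⟩
  · refine ⟨(v, u), hv, h1, h.symm, ?_⟩
    unfold Pool.Agent.X61.RS.nn
    ring

theorem bad_of_exceptional {S₀ T : Finset ℕ} (hT : ∀ p ∈ T, p.Prime) {Y : ℝ}
    (h : Exceptional S₀ T Y) : Pool.Agent.X61.RS.Bad S₀ T Y := by
  obtain ⟨a, b, c, x, y, z, p, q, r, ⟨hp, hq, hr, ha, hb, hc, hx, hy, hz, hS, hg, he⟩, hY,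
    ℓ, hℓT, hℓ⟩ := h
  set A : ℤ := a * x ^ p with hA
  set B : ℤ := b * y ^ q with hB
  set D : ℤ := c * z ^ r with hD
  have hA0 : A ≠ 0 := mul_ne_zero ha (pow_ne_zero _ hx)
  have hB0 : B ≠ 0 := mul_ne_zero hb (pow_ne_zero _ hy)
  have hD0 : D ≠ 0 := mul_ne_zero hc (pow_ne_zero _ hz)
  -- primes dividing the terms
  have hdiv : ∀ (l : ℕ) (u v : ℤ) (n : ℕ), l.Prime → (l : ℤ) ∣ u * v ^ n → (l : ℤ) ∣ u * v := by
    intro l u v n hl hd
    have hl' : Prime (l : ℤ) := Nat.prime_iff_prime_int.1 hl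
    rcases hl'.dvd_or_dvd hd with h1 | h1
    · exact h1.mul_right _
    · exact (hl'.dvd_of_dvd_pow h1).mul_left _
  have hno : ∀ l : ℕ, l.Prime → (l : ℤ) ∣ A → (l : ℤ) ∣ B → (l : ℤ) ∣ D → False := by
    intro l hl h1 h2 h3
    have h4 := hdiv l a x p hl h1
    have h5 := hdiv l b y q hl h2
    have h6 := hdiv l c z r hl h3
    have h7 : (l : ℤ) ∣ (Int.gcd ((Int.gcd (a * x) (b * y) : ℕ) : ℤ) (c * z) : ℤ) :=
      Int.dvd_coe_gcd (Int.dvd_coe_gcd h4 h5) h6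
    rw [hg] at h7
    have h8 : l ∣ 1 := by exact_mod_cast h7
    exact hl.one_lt.ne' (Nat.dvd_one.1 h8)
  have cAB : Nat.Coprime A.natAbs B.natAbs := by
    refine Nat.coprime_of_dvd fun l hl h1 h2 => ?_
    have h1' : (l : ℤ) ∣ A := Int.natCast_dvd.2 h1
    have h2' : (l : ℤ) ∣ B := Int.natCast_dvd.2 h2
    exact hno l hl h1' h2' (by rw [← he]; exact dvd_add h1' h2')
  have cAD : Nat.Coprime A.natAbs D.natAbs := by
    refine Nat.coprime_of_dvd fun l hl h1 h2 => ?_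
    have h1' : (l : ℤ) ∣ A := Int.natCast_dvd.2 h1
    have h2' : (l : ℤ) ∣ D := Int.natCast_dvd.2 h2
    refine hno l hl h1' ?_ h2'
    have : B = D - A := by linarith
    rw [this]
    exact dvd_sub h2' h1'
  have cBD : Nat.Coprime B.natAbs D.natAbs := by
    refine Nat.coprime_of_dvd fun l hl h1 h2 => ?_
    have h1' : (l : ℤ) ∣ B := Int.natCast_dvd.2 h1
    have h2' : (l : ℤ) ∣ D := Int.natCast_dvd.2 h2
    refine hno l hl ?_ h1' h2'
    have : A = D - B := by linarith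
    rw [this]
    exact dvd_sub h2' h1'
  have hA1 : 0 < A.natAbs := Int.natAbs_pos.2 hA0
  have hB1 : 0 < B.natAbs := Int.natAbs_pos.2 hB0
  have hD1 : 0 < D.natAbs := Int.natAbs_pos.2 hD0
  -- the positive triple
  obtain ⟨t, ht1, ht2, ht3, ht4⟩ : ∃ t : ℕ × ℕ, 0 < t.1 ∧ t.1 ≤ t.2 ∧ Nat.Coprime t.1 t.2 ∧
      Pool.Agent.X61.RS.nn t = (A * B * D).natAbs := by
    have hcase : A.natAbs + B.natAbs = D.natAbs ∨ A.natAbs + D.natAbs = B.natAbs ∨
        B.natAbs + D.natAbs = A.natAbs := by omega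
    rw [Int.natAbs_mul, Int.natAbs_mul]
    rcases hcase with h1 | h1 | h1
    · obtain ⟨t, h2, h3, h4, h5⟩ := exists_pair hA1 hB1 cAB
      exact ⟨t, h2, h3, h4, by rw [h5, h1]⟩
    · obtain ⟨t, h2, h3, h4, h5⟩ := exists_pair hA1 hD1 cAD
      exact ⟨t, h2, h3, h4, by rw [h5, h1]; ring⟩
    · obtain ⟨t, h2, h3, h4, h5⟩ := exists_pair hB1 hD1 cBD
      exact ⟨t, h2, h3, h4, by rw [h5, h1]; ring⟩
  have hn0 : A * B * D ≠ 0 := mul_ne_zero (mul_ne_zero hA0 hB0) hD0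
  have habc : a * b * c ≠ 0 := mul_ne_zero (mul_ne_zero ha hb) hc
  have hxyz : x * y * z ≠ 0 := mul_ne_zero (mul_ne_zero hx hy) hz
  refine ⟨t, ht1, ht2, ht3, ?_, ℓ, hℓT, ?_⟩
  · refine le_trans ?_ hY
    unfold outer
    rw [ht4]
    have hsub : (A * B * D).natAbs.primeFactors.filter (fun p => p ∉ S₀ ∧ p ∉ T) ⊆
        (x * y * z).natAbs.primeFactors.filter (fun l => l ∉ S₀ ∪ T) := by
      intro l hl
      rw [mem_filter, Nat.mem_primeFactors] at hl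
      obtain ⟨⟨hlp, hld, -⟩, hl1, hl2⟩ := hl
      have hlS : l ∉ S₀ ∪ T := by
        rw [mem_union]
        tauto
      rw [mem_filter, Nat.mem_primeFactors]
      refine ⟨⟨hlp, ?_, Int.natAbs_ne_zero.2 hxyz⟩, hlS⟩
      have hl' : Prime (l : ℤ) := Nat.prime_iff_prime_int.1 hlp
      have h1 : (l : ℤ) ∣ A * B * D := Int.natCast_dvd.2 hld
      have h2 : (l : ℤ) ∣ a * b * c * (x * y * z) := by
        rcases hl'.dvd_or_dvd h1 with h3 | h3
        · rcases hl'.dvd_or_dvd h3 with h4 | h4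
          · exact (hdiv l a x p hlp h4).trans ⟨b * c * (y * z), by ring⟩
          · exact (hdiv l b y q hlp h4).trans ⟨a * c * (x * z), by ring⟩
        · exact (hdiv l c z r hlp h3).trans ⟨a * b * (x * y), by ring⟩
      rcases hl'.dvd_or_dvd h2 with h3 | h3
      · exact absurd (hS l hlp h3) hlS
      · exact Int.natCast_dvd.1 h3
    have h1 := Nat.le_of_dvd (prod_pos fun l hl => by
      rw [mem_filter] at hl
      exact (Nat.prime_of_mem_primeFactors hl.1).pos)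
      (prod_dvd_prod_of_subset _ _ (fun l => l) hsub)
    exact_mod_cast h1
  · rw [ht4]
    have hℓp := hT ℓ hℓT
    have hl' : Prime (ℓ : ℤ) := Nat.prime_iff_prime_int.1 hℓp
    have h1 : (ℓ : ℤ) ∣ A * B * D := by
      have hx' : a * x ∣ A := mul_dvd_mul_left _ (dvd_pow_self _ (by omega))
      have hy' : b * y ∣ B := mul_dvd_mul_left _ (dvd_pow_self _ (by omega))
      have hz' : c * z ∣ D := mul_dvd_mul_left _ (dvd_pow_self _ (by omega))
      refine hℓ.trans ?_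
      have : a * b * c * (x * y * z) = (a * x) * (b * y) * (c * z) := by ring
      rw [this]
      exact mul_dvd_mul (mul_dvd_mul hx' hy') hz'
    exact Int.natCast_dvd.1 h1

/-- the general bound -/
theorem general {ε : ℝ} (hε : 0 < ε) : ∃ C : ℝ, 0 < C ∧ ∀ (S₀ P : Finset ℕ) (N k : ℕ) (Y : ℝ),
    (∀ p ∈ S₀, p.Prime) → (∀ p ∈ P, p.Prime ∧ p ≤ N ∧ p ∉ S₀) → 1 ≤ Y →
      ((exceptional S₀ P k Y).ncard : ℝ) ≤
        C * (k * ((N : ℝ) * Y * ((∏ p ∈ S₀, p : ℕ) : ℝ)) ^ (2 / 3 + ε) / P.card) *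
          P.card.choose k := by
  classical
  obtain ⟨C, hC, h⟩ := Pool.Agent.X61.RS.bad_count hε
  refine ⟨C, hC, fun S₀ P N k Y h₀ hP hY => ?_⟩
  have hsub : exceptional S₀ P k Y ⊆
      (((P.powersetCard k).filter (fun S => Pool.Agent.X61.RS.Bad S₀ S Y) : Finset (Finset ℕ)) :
        Set (Finset ℕ)) := by
    rintro T ⟨h1, h2, h3⟩
    rw [mem_coe, mem_filter, mem_powersetCard]
    exact ⟨⟨h1, h2⟩, bad_of_exceptional (fun p hp => (hP p (h1 hp)).1) h3⟩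
  have h1 := Set.ncard_le_ncard hsub (Finset.finite_toSet _)
  rw [Set.ncard_coe_finset] at h1
  have h1' : ((exceptional S₀ P k Y).ncard : ℝ) ≤
      (((P.powersetCard k).filter (fun S => Pool.Agent.X61.RS.Bad S₀ S Y)).card : ℝ) := by
    exact_mod_cast h1
  have h2 := h S₀ P N k Y h₀ hP hY
  rcases Nat.eq_zero_or_pos P.card with hM | hM
  · have : exceptional S₀ P k Y = ∅ := by
      rw [Set.eq_empty_iff_forall_notMem]
      rintro T ⟨h3, -, a, b, c, x, y, z, p, q, r, -, -, ℓ, hℓ, -⟩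
      rw [card_eq_zero] at hM
      rw [hM] at h3
      exact absurd (h3 hℓ) (notMem_empty ℓ)
    rw [this, Set.ncard_empty, Nat.cast_zero, hM]
    simp
  · have hMr : (0 : ℝ) < P.card := by exact_mod_cast hM
    refine h1'.trans ?_
    rw [← mul_le_mul_iff_left₀ hMr]
    refine h2.trans (le_of_eq ?_)
    field_simp

/-- the primes up to `N` which are not in `S₀` -/
def primesUpTo (S₀ : Finset ℕ) (N : ℕ) : Finset ℕ :=
  (range (N + 1)).filter (fun p => p.Prime ∧ p ∉ S₀)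

theorem card_primes (S₀ : Finset ℕ) {η : ℝ} (hη : 0 < η) (hη1 : η < 1) :
    ∃ N₀ : ℕ, ∀ N : ℕ, N₀ ≤ N → (N : ℝ) ^ (1 - η) ≤ (primesUpTo S₀ N).card := by
  have h1 : ∀ᶠ x : ℝ in Filter.atTop, Real.log x ≤ 1 / 16 * x ^ η := by
    have h := (isLittleO_log_rpow_atTop hη).bound (show (0 : ℝ) < 1 / 16 by norm_num)
    filter_upwards [h, Filter.eventually_ge_atTop 1] with x hx hx1
    rw [Real.norm_eq_abs, Real.norm_eq_abs, abs_of_nonneg (Real.log_nonneg hx1),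
      abs_of_nonneg (by positivity)] at hx
    exact hx
  have h2 : ∀ᶠ x : ℝ in Filter.atTop, Real.log x ≤ 1 / 16 * x := by
    have h := Real.isLittleO_log_id_atTop.bound (show (0 : ℝ) < 1 / 16 by norm_num)
    filter_upwards [h, Filter.eventually_ge_atTop 1] with x hx hx1
    rw [Real.norm_eq_abs, abs_of_nonneg (Real.log_nonneg hx1), id, Real.norm_eq_abs,
      abs_of_nonneg (by linarith)] at hx
    exact hx
  have h3 : ∀ᶠ x : ℝ in Filter.atTop, (S₀.card : ℝ) ≤ x ^ (1 - η) :=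
    (tendsto_rpow_atTop (by linarith)).eventually_ge_atTop _
  obtain ⟨X, hX⟩ := Filter.eventually_atTop.1 (h1.and (h2.and h3))
  obtain ⟨N₀, hN₀⟩ := exists_nat_ge (max X 2)
  refine ⟨N₀, fun N hN => ?_⟩
  have hNX : max X 2 ≤ N := hN₀.trans (by exact_mod_cast hN)
  obtain ⟨g1, g2, g3⟩ := hX N ((le_max_left _ _).trans hNX)
  have hN2 : (2 : ℝ) ≤ N := (le_max_right _ _).trans hNX
  have hN0 : (0 : ℝ) < N := by linarith
  have hl : 0 < Real.log N := Real.log_pos (by linarith)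
  have h4 := Chebyshev.pi_ge N
  rw [div_le_iff₀ hl] at h4
  have h5 : Real.log ((N : ℝ) + 1) ≤ 1 / 16 * N + 1 := by
    have h6 : Real.log ((N : ℝ) + 1) ≤ Real.log (N * 2) :=
      Real.log_le_log (by linarith) (by linarith)
    rw [Real.log_mul (by linarith) (by norm_num)] at h6
    have := Real.log_two_lt_d9
    linarith
  have h6 : 1 / 8 * (N : ℝ) ≤ (Nat.primeCounting N : ℝ) * Real.log N := by
    have := Real.log_two_gt_d9
    nlinarith
  have h7 : (N : ℝ) = (N : ℝ) ^ (1 - η) * (N : ℝ) ^ η := by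
    rw [← Real.rpow_add hN0, sub_add_cancel, Real.rpow_one]
  have h8 : 2 * (N : ℝ) ^ (1 - η) ≤ (Nat.primeCounting N : ℝ) := by
    have hη0 : 0 < (N : ℝ) ^ η := by positivity
    have h9 : 1 / 8 * (N : ℝ) ≤ (Nat.primeCounting N : ℝ) * (1 / 16 * (N : ℝ) ^ η) :=
      h6.trans (mul_le_mul_of_nonneg_left g1 (Nat.cast_nonneg _))
    rw [h7] at h9
    have h10 : (2 * (N : ℝ) ^ (1 - η)) * (N : ℝ) ^ η ≤
        (Nat.primeCounting N : ℝ) * (N : ℝ) ^ η := by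
      have e : ((N : ℝ) ^ (1 - η) * (N : ℝ) ^ η) ^ η = (N : ℝ) ^ η := by rw [← h7]
      rw [e] at h9
      linarith
    exact le_of_mul_le_mul_right h10 hη0
  have h9 : Nat.primeCounting N ≤ (primesUpTo S₀ N).card + S₀.card := by
    have e1 : Nat.primeCounting N = ((range (N + 1)).filter Nat.Prime).card := by
      rw [Nat.primeCounting, Nat.primeCounting', Nat.count_eq_card_filter_range]
    rw [e1]
    refine (card_le_card (t := primesUpTo S₀ N ∪ S₀) ?_).trans (card_union_le _ _)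
    intro p hp
    rw [mem_filter] at hp
    rw [mem_union, primesUpTo, mem_filter]
    tauto
  have h10 : (Nat.primeCounting N : ℝ) ≤ ((primesUpTo S₀ N).card : ℝ) + S₀.card := by
    exact_mod_cast h9
  linarith

/-- **Random sets of primes.** (1) For every `ε > 0` there is `C` such that for all finite sets `S₀`
and `P` of primes, disjoint, the primes of `P` being at most `N`, all `k` and all `Y ≥ 1` at most
`C (k (N Y ∏ S₀) ^ (2/3 + ε) / |P|) (|P| choose k)` of the `k`-element subsets `T` of `P` are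
exceptional. (2) Let `S₀` be a finite set of primes and `0 < δ < 1`. For all large `N`, all `k` and
all `Y ≥ 1` with `k ^ 3 Y ^ 2 ≤ N ^ (1 - δ)` the proportion of the exceptional sets among the
`k`-element sets `T` of primes up to `N` not in `S₀` is at most `N ^ (-δ/4)`. -/
theorem result :
    (∀ ε : ℝ, 0 < ε → ∃ C : ℝ, 0 < C ∧ ∀ (S₀ P : Finset ℕ) (N k : ℕ) (Y : ℝ),
      (∀ p ∈ S₀, p.Prime) → (∀ p ∈ P, p.Prime ∧ p ≤ N ∧ p ∉ S₀) → 1 ≤ Y →
        ((exceptional S₀ P k Y).ncard : ℝ) ≤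
          C * (k * ((N : ℝ) * Y * ((∏ p ∈ S₀, p : ℕ) : ℝ)) ^ (2 / 3 + ε) / P.card) *
            P.card.choose k) ∧
    (∀ (S₀ : Finset ℕ) (δ : ℝ), (∀ p ∈ S₀, p.Prime) → 0 < δ → δ < 1 → ∃ N₀ : ℕ, ∀ N k : ℕ,
      N₀ ≤ N → ∀ Y : ℝ, 1 ≤ Y → (k : ℝ) ^ 3 * Y ^ 2 ≤ (N : ℝ) ^ (1 - δ) →
        ((exceptional S₀ (primesUpTo S₀ N) k Y).ncard : ℝ) ≤
          (N : ℝ) ^ (-(δ / 4)) * (primesUpTo S₀ N).card.choose k) := by
  refine ⟨fun ε hε => general hε, fun S₀ δ h₀ hδ hδ1 => ?_⟩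
  obtain ⟨C, hC, h⟩ := general (show 0 < δ / 36 by linarith)
  obtain ⟨N₁, hN₁⟩ := card_primes S₀ (show 0 < δ / 48 by linarith) (by linarith)
  set P₀ : ℝ := ((∏ p ∈ S₀, p : ℕ) : ℝ) with hP₀
  have hP₀1 : 1 ≤ P₀ := by
    have : 1 ≤ ∏ p ∈ S₀, p := Nat.one_le_iff_ne_zero.2 (prod_ne_zero_iff.2 fun p hp => (h₀ p hp).ne_zero)
    rw [hP₀]
    exact_mod_cast this
  have h1 : ∀ᶠ x : ℝ in Filter.atTop, C * P₀ ^ (2 / 3 + δ / 36) ≤ x ^ (δ / 144) :=
    (tendsto_rpow_atTop (by linarith)).eventually_ge_atTop _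
  obtain ⟨X, hX⟩ := Filter.eventually_atTop.1 h1
  obtain ⟨N₂, hN₂⟩ := exists_nat_ge (max X 1)
  refine ⟨N₁ + N₂, fun N k hN Y hY hkY => ?_⟩
  have hNX : max X 1 ≤ N := hN₂.trans (by exact_mod_cast (by omega : N₂ ≤ N))
  have g1 := hX N ((le_max_left _ _).trans hNX)
  have hN1 : (1 : ℝ) ≤ N := (le_max_right _ _).trans hNX
  have hN0 : (0 : ℝ) < N := by linarith
  have g2 := hN₁ N (by omega)
  rcases Nat.eq_zero_or_pos k with hk | hk
  · have : exceptional S₀ (primesUpTo S₀ N) k Y = ∅ := by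
      rw [Set.eq_empty_iff_forall_notMem]
      rintro T ⟨-, h3, a, b, c, x, y, z, p, q, r, -, -, ℓ, hℓ, -⟩
      rw [hk, card_eq_zero] at h3
      rw [h3] at hℓ
      exact absurd hℓ (notMem_empty ℓ)
    rw [this, Set.ncard_empty, Nat.cast_zero]
    positivity
  have hk1 : (1 : ℝ) ≤ k := by exact_mod_cast hk
  have hk0 : (0 : ℝ) < k := by linarith
  have hY0 : 0 < Y := by linarith
  have g3 := h S₀ (primesUpTo S₀ N) N k Y h₀ (fun p hp => by
    rw [primesUpTo, mem_filter, mem_range] at hp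
    exact ⟨hp.2.1, by omega, hp.2.2⟩) hY
  refine g3.trans (mul_le_mul_of_nonneg_right ?_ (Nat.cast_nonneg _))
  -- exponents
  have hM0 : (0 : ℝ) < (primesUpTo S₀ N).card := lt_of_lt_of_le (by positivity) g2
  have e1 : (k : ℝ) * Y ^ (2 / 3 : ℝ) ≤ (N : ℝ) ^ ((1 - δ) / 3) := by
    have h2 := Real.rpow_le_rpow (by positivity) hkY (show (0 : ℝ) ≤ 1 / 3 by norm_num)
    rw [Real.mul_rpow (by positivity) (by positivity), ← Real.rpow_natCast (k : ℝ) 3,
      ← Real.rpow_natCast Y 2, ← Real.rpow_mul hk0.le, ← Real.rpow_mul hY0.le,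
      ← Real.rpow_mul hN0.le] at h2
    have e2 : ((3 : ℕ) : ℝ) * (1 / 3) = 1 := by norm_num
    have e3 : ((2 : ℕ) : ℝ) * (1 / 3) = 2 / 3 := by norm_num
    have e4 : (1 - δ) * (1 / 3) = (1 - δ) / 3 := by ring
    rw [e2, e3, e4, Real.rpow_one] at h2
    exact h2
  have e2 : Y ^ (δ / 36) ≤ (N : ℝ) ^ (δ / 36) := by
    refine Real.rpow_le_rpow hY0.le ?_ (by linarith)
    have h2 : Y ^ 2 ≤ N := by
      have h3 : (1 : ℝ) ≤ (k : ℝ) ^ 3 := one_le_pow₀ hk1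
      have h4 : (N : ℝ) ^ (1 - δ) ≤ N := by
        calc (N : ℝ) ^ (1 - δ) ≤ (N : ℝ) ^ (1 : ℝ) :=
              Real.rpow_le_rpow_of_exponent_le hN1 (by linarith)
          _ = N := Real.rpow_one _
      nlinarith [sq_nonneg Y]
    nlinarith
  rw [← hP₀, ← mul_div_assoc, div_le_iff₀ hM0]
  have e3 : ((N : ℝ) * Y * P₀) ^ (2 / 3 + δ / 36) = (N : ℝ) ^ (2 / 3 + δ / 36) *
      (Y ^ (2 / 3 : ℝ) * Y ^ (δ / 36)) * P₀ ^ (2 / 3 + δ / 36) := by
    rw [Real.mul_rpow (by positivity) (by positivity), Real.mul_rpow hN0.le hY0.le,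
      ← Real.rpow_add hY0]
  rw [e3]
  calc C * ((k : ℝ) * ((N : ℝ) ^ (2 / 3 + δ / 36) * (Y ^ (2 / 3 : ℝ) * Y ^ (δ / 36)) *
        P₀ ^ (2 / 3 + δ / 36)))
      = (C * P₀ ^ (2 / 3 + δ / 36)) * ((N : ℝ) ^ (2 / 3 + δ / 36) *
        ((k * Y ^ (2 / 3 : ℝ)) * Y ^ (δ / 36))) := by ring
    _ ≤ (N : ℝ) ^ (δ / 144) * ((N : ℝ) ^ (2 / 3 + δ / 36) *
        ((N : ℝ) ^ ((1 - δ) / 3) * (N : ℝ) ^ (δ / 36))) := by gcongr
    _ = (N : ℝ) ^ (δ / 144 + (2 / 3 + δ / 36 + ((1 - δ) / 3 + δ / 36))) := by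
        rw [← Real.rpow_add hN0, ← Real.rpow_add hN0, ← Real.rpow_add hN0]
    _ ≤ (N : ℝ) ^ (-(δ / 4) + (1 - δ / 48)) :=
        Real.rpow_le_rpow_of_exponent_le hN1 (by linarith)
    _ = (N : ℝ) ^ (-(δ / 4)) * (N : ℝ) ^ (1 - δ / 48) := Real.rpow_add hN0 _ _
    _ ≤ (N : ℝ) ^ (-(δ / 4)) * ((primesUpTo S₀ N).card : ℝ) :=
        mul_le_mul_of_nonneg_left g2 (by positivity)

end Pool.Agent.Results.MP_be1fae_nt.RandomPrimeSets
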