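import Pool.Agent.TH888.F.Main

/-!
# Generalised Fermat equations with coefficients `± 1` and one fixed base, all exponents free

Let `F` be a finite set of integers `A ≥ 2`, and `ε > 0`, `0 < δ ≤ 1`. In every interval `(b, b + Y]` with `Y` large and
`b ≤ Y ^ (2 - δ)`, all but `ε Y` integers `B` have the following property: for every `A ∈ F` coprime to `B` there is no
solution of `a A ^ p + e B ^ q = c z ^ r` with `a, e, c ∈ {1, -1}`, `p, q ≥ 1`, `r ≥ 2` and `z ≠ 0`. The three exponents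
and the third base are completely free.
-/

set_option autoImplicit false

namespace Pool.Agent.Results.MP_be1fae_nt.FixedBase

/-- There are signs `a`, `e`, `c`, exponents `p, q ≥ 1`, `r ≥ 2` and an integer `z ≠ 0` with
`a A ^ p + e B ^ q = c z ^ r`. -/
def HasSolution (A B : ℕ) : Prop :=
  ∃ (a e c z : ℤ) (p q r : ℕ), (a = 1 ∨ a = -1) ∧ (e = 1 ∨ e = -1) ∧ (c = 1 ∨ c = -1) ∧
    1 ≤ p ∧ 1 ≤ q ∧ 2 ≤ r ∧ z ≠ 0 ∧ a * (A : ℤ) ^ p + e * (B : ℤ) ^ q = c * z ^ r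

lemma eqn_of {A B : ℕ} (h : HasSolution A B) :
    ∃ x y z C : ℕ, 0 < x ∧ 0 < y ∧ 2 ≤ z ∧ 0 < C ∧ Pool.Agent.TH888.F.Eqn A B C x y z := by
  obtain ⟨a, e, c, z, p, q, r, ha, he, hc, hp, hq, hr, hz, h⟩ := h
  refine ⟨p, q, r, z.natAbs, by omega, by omega, hr, by omega, ?_⟩
  have hzr : ∃ s : ℤ, (s = 1 ∨ s = -1) ∧ c * z ^ r = s * ((z.natAbs ^ r : ℕ) : ℤ) := by
    rcases Int.natAbs_eq z with h1 | h1
    · refine ⟨c, hc, ?_⟩
      have : z ^ r = ((z.natAbs ^ r : ℕ) : ℤ) := by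
        conv_lhs => rw [h1]
        push_cast
        rfl
      rw [this]
    · rcases Nat.even_or_odd r with hr2 | hr2
      · refine ⟨c, hc, ?_⟩
        have : z ^ r = ((z.natAbs ^ r : ℕ) : ℤ) := by
          conv_lhs => rw [h1]
          rw [hr2.neg_pow]
          push_cast
          rfl
        rw [this]
      · refine ⟨-c, by rcases hc with rfl | rfl <;> simp, ?_⟩
        have : z ^ r = - ((z.natAbs ^ r : ℕ) : ℤ) := by
          conv_lhs => rw [h1]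
          rw [hr2.neg_pow]
          push_cast
          rfl
        rw [this]
        ring
  obtain ⟨s, hs, hs2⟩ := hzr
  rw [hs2] at h
  have hA : (0 : ℤ) ≤ ((A ^ p : ℕ) : ℤ) := Int.natCast_nonneg _
  have hB : (0 : ℤ) ≤ ((B ^ q : ℕ) : ℤ) := Int.natCast_nonneg _
  have hZ : (0 : ℤ) < ((z.natAbs ^ r : ℕ) : ℤ) := by
    have : 0 < z.natAbs ^ r := pow_pos (by omega) _
    exact_mod_cast this
  have h' : a * ((A ^ p : ℕ) : ℤ) + e * ((B ^ q : ℕ) : ℤ) = s * ((z.natAbs ^ r : ℕ) : ℤ) := by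
    rw [← h]; push_cast; rfl
  show A ^ p + B ^ q = z.natAbs ^ r ∨ A ^ p + z.natAbs ^ r = B ^ q ∨ B ^ q + z.natAbs ^ r = A ^ p
  revert h' hA hB hZ
  generalize A ^ p = X
  generalize B ^ q = Z
  generalize z.natAbs ^ r = W
  intro hA hB hZ h'
  rcases ha with rfl | rfl <;> rcases he with rfl | rfl <;> rcases hs with rfl | rfl <;> omega

/-- For every finite set `F` of integers `A ≥ 2`, all `ε > 0` and `0 < δ ≤ 1` and all large `Y`: in every interval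
`(b, b + Y]` with `b ≤ Y ^ (2 - δ)` all but at most `ε Y` integers `B` are such that for no `A ∈ F` coprime to `B`
there are signs `a`, `e`, `c`, exponents `p, q ≥ 1`, `r ≥ 2` and `z ≠ 0` with `a A ^ p + e B ^ q = c z ^ r`. -/
theorem result (F : Finset ℕ) (hF : ∀ A ∈ F, 2 ≤ A) (ε δ : ℝ) (hε : 0 < ε) (hδ : 0 < δ) (hδ1 : δ ≤ 1) :
    ∃ L : ℕ, ∀ Y : ℕ, L ≤ Y → ∀ b : ℕ, (b : ℝ) ≤ (Y : ℝ) ^ (2 - δ) →
      (({B : ℕ | b < B ∧ B ≤ b + Y ∧ ∃ A ∈ F, Nat.Coprime A B ∧ HasSolution A B}.ncard : ℕ) : ℝ) ≤ ε * Y := by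
  classical
  have key : ∀ A ∈ F, ∃ L : ℕ, ∀ Y : ℕ, L ≤ Y → ∀ b : ℕ, (b : ℝ) ≤ (Y : ℝ) ^ (2 - δ) →
      (({B : ℕ | B ∈ Set.Ioc b (b + Y) ∧ Nat.Coprime A B ∧
        ∃ x y z C : ℕ, 0 < x ∧ 0 < y ∧ 2 ≤ z ∧ 0 < C ∧ Pool.Agent.TH888.F.Eqn A B C x y z}.ncard : ℕ) : ℝ) ≤
        ε / (F.card + 1) * Y :=
    fun A hA => Pool.Agent.TH888.F.main A (hF A hA) (by positivity) hδ hδ1
  choose! L hL using key
  refine ⟨F.sup L, fun Y hY b hb => ?_⟩
  let S : ℕ → Set ℕ := fun A => {B : ℕ | B ∈ Set.Ioc b (b + Y) ∧ Nat.Coprime A B ∧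
        ∃ x y z C : ℕ, 0 < x ∧ 0 < y ∧ 2 ≤ z ∧ 0 < C ∧ Pool.Agent.TH888.F.Eqn A B C x y z}
  have hfin : ∀ A, (S A).Finite := fun A => (Set.finite_Ioc b (b + Y)).subset fun B hB => hB.1
  have hsub : {B : ℕ | b < B ∧ B ≤ b + Y ∧ ∃ A ∈ F, Nat.Coprime A B ∧ HasSolution A B} ⊆
      ((F.biUnion fun A => (hfin A).toFinset : Finset ℕ) : Set ℕ) := by
    rintro B ⟨h1, h2, A, hA, hAB, hsol⟩
    rw [Finset.mem_coe, Finset.mem_biUnion]
    exact ⟨A, hA, (hfin A).mem_toFinset.mpr ⟨⟨h1, h2⟩, hAB, eqn_of hsol⟩⟩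
  have h1 : {B : ℕ | b < B ∧ B ≤ b + Y ∧ ∃ A ∈ F, Nat.Coprime A B ∧ HasSolution A B}.ncard ≤
      (F.biUnion fun A => (hfin A).toFinset).card := by
    rw [← Set.ncard_coe_finset]
    exact Set.ncard_le_ncard hsub (Finset.finite_toSet _)
  have h2 : (((F.biUnion fun A => (hfin A).toFinset).card : ℕ) : ℝ) ≤
      ∑ A ∈ F, (((hfin A).toFinset.card : ℕ) : ℝ) := by
    exact_mod_cast Finset.card_biUnion_le
  have h3 : ∀ A ∈ F, (((hfin A).toFinset.card : ℕ) : ℝ) ≤ ε / (F.card + 1) * Y := by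
    intro A hA
    have := hL A hA Y ((Finset.le_sup hA).trans hY) b hb
    rwa [← Set.ncard_eq_toFinset_card _ (hfin A)]
  have hc : (0 : ℝ) < (F.card : ℝ) + 1 := by positivity
  calc (({B : ℕ | b < B ∧ B ≤ b + Y ∧ ∃ A ∈ F, Nat.Coprime A B ∧ HasSolution A B}.ncard : ℕ) : ℝ)
      ≤ (((F.biUnion fun A => (hfin A).toFinset).card : ℕ) : ℝ) := by exact_mod_cast h1
    _ ≤ ∑ A ∈ F, (((hfin A).toFinset.card : ℕ) : ℝ) := h2
    _ ≤ ∑ _A ∈ F, ε / (F.card + 1) * Y := Finset.sum_le_sum h3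
    _ = (F.card / (F.card + 1)) * (ε * Y) := by
        rw [Finset.sum_const, nsmul_eq_mul]; field_simp
    _ ≤ 1 * (ε * Y) := by
        apply mul_le_mul_of_nonneg_right _ (by positivity)
        rw [div_le_one hc]; linarith
    _ = ε * Y := one_mul _

end Pool.Agent.Results.MP_be1fae_nt.FixedBase
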