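import Pool.Agent.Results.MP_be1fae_nt.SolutionsByBases
import Pool.Agent.X123.ML.Base

/-!
# Solutions with coefficients composed of given primes, near the points outside a small set

There is a threshold `R (S, k)` for every finite set `S` of primes and every `k` with the following
property. Let `s` be any map from the triples of integers to a metric space, for example the ratio
`t ↦ t₁ / t₃` of two terms as a real number. Outside a set of Hausdorff dimension ZERO every point `θ`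
satisfies for all large `k` and ALL finite sets `S` of primes: the `S`-solutions of
`a x ^ p + b y ^ q = c z ^ r` with large exponents (two of them `≥ R (S, k)`, or all `≥ 2` and one
`≥ R (S, k)`) and `|θ - s(a x ^ p, b y ^ q, c z ^ r)| ≤ max (|x|, |y|, |z|) ^ (- 1 / (k + 1))` have only
finitely many triples of terms. The distance is compared with a small power of the BASES; there is no
bound on the exponents, the terms and the coefficients.
-/

set_option autoImplicit false

open scoped ENNReal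

namespace Pool.Agent.Results.MP_be1fae_nt.RatiosNearTargets

open SolutionsByBases (Solution TwoLarge OneLarge ByBases)
open Pool.Agent.X123.ML

/-- the largest absolute value of the bases -/
noncomputable def base (x y z : ℤ) : ℝ := max (max |(x : ℝ)| |(y : ℝ)|) |(z : ℝ)|

/-- the triples of terms of the `S`-solutions with large exponents which are close to `θ` -/
def Near {M : Type} [MetricSpace M] (s : ℤ × ℤ × ℤ → M) (S : Finset ℕ) (R : ℕ) (τ : ℝ) (θ : M) :
    Set (ℤ × ℤ × ℤ) :=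
  {t | ∃ (a b c x y z : ℤ) (p q r : ℕ), Solution a b c x y z p q r ∧
    t = (a * x ^ p, b * y ^ q, c * z ^ r) ∧
    (∀ l : ℕ, l.Prime → (l : ℤ) ∣ a * b * c → l ∈ S) ∧
    (TwoLarge R p q r ∨ OneLarge R p q r) ∧ dist θ (s t) ≤ base x y z ^ (-τ)}

/-- the triples of terms of all `S`-solutions with large exponents -/
def All (S : Finset ℕ) (R : ℕ) : Set (ℤ × ℤ × ℤ) := {t | ∃ B : ℕ, t ∈ ByBases S R B}

/-- the smallest bound of the bases of a triple of terms -/
noncomputable def least (S : Finset ℕ) (R : ℕ) (t : ℤ × ℤ × ℤ) : ℕ :=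
  sInf {B : ℕ | t ∈ ByBases S R B}

lemma least_mem {S : Finset ℕ} {R : ℕ} {t : ℤ × ℤ × ℤ} (h : t ∈ All S R) :
    t ∈ ByBases S R (least S R t) :=
  Nat.sInf_mem (s := {B : ℕ | t ∈ ByBases S R B}) h

lemma mono {S : Finset ℕ} {R : ℕ} {Y Y' : ℝ} (h : Y ≤ Y') : ByBases S R Y ⊆ ByBases S R Y' := by
  rintro t ⟨a, b, c, x, y, z, p, q, r, h1, h2, h3, h4, h5⟩
  exact ⟨a, b, c, x, y, z, p, q, r, h1, h2, h3, h4, h5.1.trans h, h5.2.1.trans h, h5.2.2.trans h⟩

lemma one_le {x : ℤ} (hx : x ≠ 0) : (1 : ℝ) ≤ |(x : ℝ)| := by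
  have h : (1 : ℤ) ≤ |x| := Int.one_le_abs hx
  have h7 : ((1 : ℤ) : ℝ) ≤ ((|x| : ℤ) : ℝ) := by exact_mod_cast h
  rwa [Int.cast_one, Int.cast_abs] at h7

lemma least_pos {S : Finset ℕ} {R : ℕ} {t : ℤ × ℤ × ℤ} (h : t ∈ All S R) :
    (1 : ℝ) ≤ (least S R t : ℝ) := by
  obtain ⟨a, b, c, x, y, z, p, q, r, h1, h2, h3, h4, h5⟩ := least_mem h
  exact (one_le h1.2.2.2.2.1).trans h5.1

lemma cnt_all (S : Finset ℕ) (ε : ℝ) (R : ℕ) (C : ℝ) (hC : 0 < C)
    (h : ∀ Y : ℝ, 1 ≤ Y → (ByBases S R Y).Finite ∧ ((ByBases S R Y).ncard : ℝ) ≤ C * Y ^ ε) :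
    Cnt (All S R) (fun t => Real.log (least S R t : ℝ)) ε := by
  intro δ hδ
  refine ⟨C, fun T hT => ?_⟩
  have hX : (1 : ℝ) ≤ Real.exp T := Real.one_le_exp hT
  obtain ⟨h1, h2⟩ := h (Real.exp T) hX
  have hsub : {t | t ∈ All S R ∧ Real.log (least S R t : ℝ) ≤ T} ⊆ ByBases S R (Real.exp T) := by
    rintro t ⟨ht, hl⟩
    have hp : (0 : ℝ) < (least S R t : ℝ) := lt_of_lt_of_le one_pos (least_pos ht)
    exact mono ((Real.log_le_iff_le_exp hp).1 hl) (least_mem ht)
  refine ⟨h1.subset hsub, ?_⟩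
  have h3 : (({t | t ∈ All S R ∧ Real.log (least S R t : ℝ) ≤ T}.ncard : ℕ) : ℝ) ≤
      ((ByBases S R (Real.exp T)).ncard : ℝ) := by exact_mod_cast Set.ncard_le_ncard hsub h1
  refine h3.trans (h2.trans ?_)
  rw [← Real.exp_mul]
  apply mul_le_mul_of_nonneg_left _ hC.le
  apply Real.exp_le_exp.2
  nlinarith

/-- **Theorem.** There are thresholds `R (S, k)` such that for every map `s` from the triples of
integers to a metric space there is a set `E` of Hausdorff dimension zero with the following property.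
For each `θ` outside `E`, for all large `k` and ALL finite sets `S` of primes, the `S`-solutions with
large exponents (two of them `≥ R (S, k)`, or all `≥ 2` and one `≥ R (S, k)`) whose triple of terms `t`
satisfies `|θ - s(t)| ≤ max (|x|, |y|, |z|) ^ (- 1 / (k + 1))` have only finitely many triples of
terms. -/
theorem result : ∃ R : Finset ℕ → ℕ → ℕ, ∀ (M : Type) [MetricSpace M] (s : ℤ × ℤ × ℤ → M),
    ∃ E : Set M, dimH E = 0 ∧ ∀ θ : M, θ ∉ E → ∃ J : ℕ, ∀ k : ℕ, J ≤ k → ∀ S : Finset ℕ,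
      (Near s S (R S k) (1 / ((k : ℝ) + 1)) θ).Finite := by
  classical
  have hex : ∀ (S : Finset ℕ) (k : ℕ), ∃ R : ℕ,
      Cnt (All S R) (fun t => Real.log (least S R t : ℝ)) (1 / ((k : ℝ) + 1) ^ 2) := by
    intro S k
    obtain ⟨R, C, hC, h⟩ := SolutionsByBases.result.2.2 S (1 / ((k : ℝ) + 1) ^ 2) (by positivity)
    exact ⟨R, cnt_all S _ R C hC h⟩
  choose R hR using hex
  refine ⟨R, fun M _ s => ?_⟩
  obtain ⟨G, hG⟩ : ∃ G : ℕ → Finset ℕ → Set M, ∀ k S, G k S = {θ : M | {t | t ∈ All S (R S k) ∧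
      dist θ (s t) ≤ Real.exp (-(1 / ((k : ℝ) + 1) *
        Real.log (least S (R S k) t : ℝ)))}.Infinite} := ⟨_, fun _ _ => rfl⟩
  obtain ⟨E, hE, hE2⟩ := levels G (fun k S => by
    rw [hG]
    refine (dim_le (All S (R S k)) (fun t => Real.log (least S (R S k) t : ℝ))
      (fun t ht => Real.log_nonneg (least_pos ht)) (by positivity) (by positivity) (hR S k)
      s).trans (le_of_eq ?_)
    congr 1
    field_simp)
  refine ⟨E, hE, fun θ hθ => ?_⟩
  obtain ⟨J, hJ⟩ := hE2 θ hθ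
  refine ⟨J, fun k hk S => ?_⟩
  have h1 := hJ k hk S
  rw [hG, Set.mem_ofPred_eq, Set.not_infinite] at h1
  refine h1.subset ?_
  rintro t ⟨a, b, c, x, y, z, p, q, r, h2, h3, h4, h5, h6⟩
  have hb1 : (1 : ℝ) ≤ base x y z :=
    (one_le h2.2.2.2.2.1).trans ((le_max_left _ _).trans (le_max_left _ _))
  have hmem : t ∈ ByBases S (R S k) (base x y z) :=
    ⟨a, b, c, x, y, z, p, q, r, h2, h3, h4, h5, (le_max_left _ _).trans (le_max_left _ _),
      (le_max_right _ _).trans (le_max_left _ _), le_max_right _ _⟩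
  obtain ⟨B, hB⟩ : ∃ B : ℤ, (B : ℝ) = base x y z :=
    ⟨max (max |x| |y|) |z|, by unfold base; push_cast; rfl⟩
  have hB1 : (1 : ℤ) ≤ B := by
    rw [← hB] at hb1
    exact_mod_cast hb1
  obtain ⟨N, rfl⟩ := Int.eq_ofNat_of_zero_le (by omega : 0 ≤ B)
  have hN : ((N : ℕ) : ℝ) = base x y z := by exact_mod_cast hB
  rw [← hN] at hmem h6 hb1
  have hall : t ∈ All S (R S k) := ⟨N, hmem⟩
  have hle : (least S (R S k) t : ℝ) ≤ (N : ℝ) := by exact_mod_cast Nat.sInf_le hmem
  have hl1 := least_pos hall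
  refine ⟨hall, h6.trans ?_⟩
  have hl0 : (0 : ℝ) < (least S (R S k) t : ℝ) := lt_of_lt_of_le one_pos hl1
  rw [exp_eq_pow hl0]
  exact Real.rpow_le_rpow_of_nonpos hl0 hle (by
    have : (0 : ℝ) < 1 / ((k : ℝ) + 1) := by positivity
    linarith)

end Pool.Agent.Results.MP_be1fae_nt.RatiosNearTargets
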