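import Mathlib
import Pool.Agent.X95T.IA2

/-!
# The terms of a solution are bounded in terms of the bases

Let `S` be a finite set of primes. If `2 ∉ S`, then there is `κ` such that for every `S`-solution of
`a x ^ p + b y ^ q = c z ^ r` with `|x|, |y|, |z| ≤ H` (`H ≥ 3`) the three terms are at most
`exp ((log H) ^ κ)` in absolute value. So the coefficients are not larger than this, and the exponents of
the bases other than `±1` are at most `(log H) ^ κ / log 2`. For an arbitrary finite set `S` the same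
holds for the `S`-solutions one of whose bases is divisible by a prime of a given finite set `T`.

There is a uniform version with general coefficients: the coefficient `a` of the term whose base
has a prime factor `≤ (log H) ^ K` may be any nonzero integer whose prime factors are
`≤ (log H) ^ K`, and `b`, `c` may be products of arbitrary powers of `k` integers `≤ H`.

Method. The linear forms in the logarithms of the `k + 1` integers which generate `b y ^ q` and of those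
which generate `c z ^ r` at a small prime bound the valuations of `a x ^ p`, hence `p` and `a`; the
linear forms in the real logarithms then bound the two other terms.
-/

set_option autoImplicit false

namespace Pool.Agent.Results.MP_be1fae_nt.TermsBoundedByBases

open Pool.Agent.X95T.TB

/-- solutions of `a x ^ p + b y ^ q = c z ^ r` with nonzero entries, positive exponents and
`gcd (ax, by, cz) = 1` (the condition `1/p + 1/q + 1/r < 1` is not imposed) -/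
def Solution (a b c x y z : ℤ) (p q r : ℕ) : Prop :=
  a * x ^ p + b * y ^ q = c * z ^ r ∧ a ≠ 0 ∧ b ≠ 0 ∧ c ≠ 0 ∧ x ≠ 0 ∧ y ≠ 0 ∧ z ≠ 0 ∧
    0 < p ∧ 0 < q ∧ 0 < r ∧ Int.gcd (a * x) (Int.gcd (b * y) (c * z)) = 1

/-- `b` is, up to sign, a product of powers of `k` positive integers `≤ W` -/
def Coefficient (k : ℕ) (W : ℝ) (b : ℤ) : Prop :=
  ∃ g e : Fin k → ℕ, (∀ i, 0 < g i ∧ (g i : ℝ) ≤ W) ∧ b.natAbs = ∏ i, g i ^ e i

/-- the three terms are at most `V` in absolute value -/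
def Bounded (V : ℝ) (a b c x y z : ℤ) (p q r : ℕ) : Prop :=
  |((a * x ^ p : ℤ) : ℝ)| ≤ V ∧ |((b * y ^ q : ℤ) : ℝ)| ≤ V ∧ |((c * z ^ r : ℤ) : ℝ)| ≤ V

lemma tri {A B C : ℤ} (h : A + B = C) : Tri A.natAbs B.natAbs C.natAbs := by
  unfold Tri; omega

lemma coprime_of {a b c x y z : ℤ} {p q r : ℕ} (h : Solution a b c x y z p q r) :
    Nat.Coprime (b * y ^ q).natAbs (c * z ^ r).natAbs := by
  obtain ⟨h1, -, -, -, -, -, -, -, -, -, h2⟩ := h
  apply Nat.coprime_of_dvd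
  intro ℓ hℓ hd1 hd2
  have hP : Prime (ℓ : ℤ) := Nat.prime_iff_prime_int.mp hℓ
  have key : ∀ {u v : ℤ} {m : ℕ}, (ℓ : ℤ) ∣ u * v ^ m → (ℓ : ℤ) ∣ u * v := by
    intro u v m hd
    rcases hP.dvd_or_dvd hd with h | h
    · exact h.mul_right _
    · exact (hP.dvd_of_dvd_pow h).mul_left _
  have e1 : (ℓ : ℤ) ∣ b * y ^ q := Int.natCast_dvd.2 hd1
  have e2 : (ℓ : ℤ) ∣ c * z ^ r := Int.natCast_dvd.2 hd2
  have e3 : (ℓ : ℤ) ∣ a * x ^ p := by
    have : a * x ^ p = c * z ^ r - b * y ^ q := by linarith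
    rw [this]
    exact dvd_sub e2 e1
  have e4 : (ℓ : ℤ) ∣ ((Int.gcd (b * y) (c * z) : ℕ) : ℤ) := Int.dvd_coe_gcd (key e1) (key e2)
  have e5 : (ℓ : ℤ) ∣ ((Int.gcd (a * x) (Int.gcd (b * y) (c * z)) : ℕ) : ℤ) :=
    Int.dvd_coe_gcd (key e3) e4
  rw [h2] at e5
  have : (ℓ : ℤ) ∣ 1 := by exact_mod_cast e5
  exact hP.not_isUnit (isUnit_of_dvd_one this)

lemma log_three : (1 : ℝ) < Real.log 3 := by
  rw [Real.lt_log_iff_exp_lt (by norm_num)]
  have := Real.exp_one_lt_d9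
  linarith

lemma exists_pow (B : ℝ) : ∃ m : ℕ, B ≤ Real.log 3 ^ m := by
  obtain ⟨m, hm⟩ := pow_unbounded_of_one_lt B log_three
  exact ⟨m, hm.le⟩

/-- the uniform version -/
theorem uniform (k K : ℕ) : ∃ κ : ℕ, ∀ (H : ℝ) (a b c x y z : ℤ) (p q r : ℕ), 3 ≤ H →
    Solution a b c x y z p q r → |(x : ℝ)| ≤ H → |(y : ℝ)| ≤ H → |(z : ℝ)| ≤ H →
    (∀ ℓ : ℕ, ℓ.Prime → (ℓ : ℤ) ∣ a → (ℓ : ℝ) ≤ Real.log H ^ K) →
    (∃ ℓ : ℕ, ℓ.Prime ∧ (ℓ : ℤ) ∣ x ∧ (ℓ : ℝ) ≤ Real.log H ^ K) →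
    Coefficient k H b → Coefficient k H c →
    Bounded (Real.exp (Real.log H ^ κ)) a b c x y z p q r := by
  obtain ⟨C, κ, hC⟩ := core (k + 1)
  obtain ⟨m, hm⟩ := exists_pow (C * 3 ^ κ)
  refine ⟨m + (K + 1) * κ, ?_⟩
  intro H a b c x y z p q r hH hs hx hy hz ha hℓ hb hc
  obtain ⟨L, hL⟩ : ∃ L, L = Real.log H := ⟨_, rfl⟩
  have hH0 : 0 < H := by linarith
  have hL3 : Real.log 3 ≤ L := by rw [hL]; exact Real.log_le_log (by norm_num) hH
  have hL1 : 1 ≤ L := log_three.le.trans hL3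
  obtain ⟨S, hS⟩ : ∃ S : ℕ, S = ⌈2 * L ^ (K + 1)⌉₊ := ⟨_, rfl⟩
  have hLK : L ≤ L ^ (K + 1) := le_self_pow₀ hL1 (by omega)
  have hLK' : L ^ K ≤ L ^ (K + 1) := pow_le_pow_right₀ hL1 (by omega)
  have hLK0 : 0 ≤ L ^ K := by positivity
  have hS1 : 2 * L ^ (K + 1) ≤ S := by rw [hS]; exact Nat.le_ceil _
  have hS2 : (S : ℝ) ≤ 3 * L ^ (K + 1) := by
    have := Nat.ceil_lt_add_one (show 0 ≤ 2 * L ^ (K + 1) by positivity)
    rw [← hS] at this
    linarith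
  have hS3 : 2 ≤ S := by
    have : (2 : ℝ) ≤ S := by linarith
    exact_mod_cast this
  have hHS : H ≤ 2 ^ S := by
    have h1 : H = Real.exp L := by rw [hL, Real.exp_log hH0]
    have h2 : (2 : ℝ) ^ S = Real.exp (S * Real.log 2) := by
      rw [mul_comm, Real.exp_mul, Real.exp_log (by norm_num), Real.rpow_natCast]
    rw [h2]
    rw [h1]
    apply Real.exp_le_exp.mpr
    have h3 : (0.6931471803 : ℝ) < Real.log 2 := Real.log_two_gt_d9
    nlinarith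
  have hnat : ∀ t : ℕ, (t : ℝ) ≤ H → t ≤ 2 ^ S := by
    intro t ht
    have : (t : ℝ) ≤ ((2 ^ S : ℕ) : ℝ) := by push_cast; exact ht.trans hHS
    exact_mod_cast this
  have hnatAbs : ∀ t : ℤ, |(t : ℝ)| ≤ H → t.natAbs ≤ 2 ^ S := by
    intro t ht
    apply hnat
    rw [Nat.cast_natAbs]
    push_cast
    exact ht
  have hsm : ∀ ℓ : ℕ, (ℓ : ℝ) ≤ Real.log H ^ K → ℓ ≤ S := by
    intro ℓ h
    rw [← hL] at h
    have : (ℓ : ℝ) ≤ S := by linarith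
    exact_mod_cast this
  have hcop := coprime_of hs
  obtain ⟨heq, ha0, hb0, hc0, hx0, hy0, hz0, hp, hq, hr, -⟩ := hs
  have hgen : ∀ (u v : ℤ) (j : ℕ), v ≠ 0 → |(v : ℝ)| ≤ H → Coefficient k H u →
      Gen (k + 1) (2 ^ S) (u * v ^ j).natAbs := by
    intro u v j hv hvH ⟨g, e, hg, hge⟩
    rw [Int.natAbs_mul, Int.natAbs_pow]
    refine Gen.mul ⟨g, e, fun i => ⟨(hg i).1, hnat _ (hg i).2⟩, hge⟩ (Gen.one_pow ?_ (hnatAbs v hvH) j)
    exact Int.natAbs_pos.mpr hv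
  have hctl : Ctl S (a * x ^ p).natAbs := by
    refine ⟨a.natAbs, x.natAbs, p, by rw [Int.natAbs_mul, Int.natAbs_pow], hnatAbs x hx, ?_, ?_⟩
    · intro ℓ h1 h2
      exact hsm ℓ (ha ℓ h1 (Int.natCast_dvd.2 h2))
    · obtain ⟨ℓ, h1, h2, h3⟩ := hℓ
      exact Or.inr ⟨ℓ, h1, hsm ℓ h3, Int.natCast_dvd.1 h2⟩
  have hN : (a * x ^ p).natAbs ≠ 0 := by
    rw [Int.natAbs_ne_zero]
    exact mul_ne_zero ha0 (pow_ne_zero _ hx0)
  obtain ⟨b1, b2, b3⟩ := hC S hS3 _ _ _ (hgen b y q hy0 hy hb) (hgen c z r hz0 hz hc) hcop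
    (tri heq) hN hctl
  have hfin : ((2 : ℕ) ^ (C * S ^ κ) : ℝ) ≤ Real.exp (Real.log H ^ (m + (K + 1) * κ)) := by
    have h1 : ((2 : ℕ) : ℝ) ≤ Real.exp 1 := by
      have := Real.exp_one_gt_d9
      push_cast
      linarith
    have h2 : ((2 : ℕ) ^ (C * S ^ κ) : ℝ) ≤ Real.exp ((C * S ^ κ : ℕ) : ℝ) := by
      calc ((2 : ℕ) ^ (C * S ^ κ) : ℝ) ≤ Real.exp 1 ^ (C * S ^ κ) :=
            pow_le_pow_left₀ (by positivity) h1 _
        _ = Real.exp ((C * S ^ κ : ℕ) : ℝ) := by rw [← Real.exp_nat_mul, mul_one]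
    refine h2.trans (Real.exp_le_exp.mpr ?_)
    push_cast
    rw [← hL, pow_add, pow_mul]
    calc (C : ℝ) * (S : ℝ) ^ κ ≤ C * (3 * L ^ (K + 1)) ^ κ := by gcongr
      _ = (C * 3 ^ κ) * (L ^ (K + 1)) ^ κ := by rw [mul_pow]; ring
      _ ≤ L ^ m * (L ^ (K + 1)) ^ κ := by
          apply mul_le_mul_of_nonneg_right _ (by positivity)
          exact hm.trans (pow_le_pow_left₀ (by linarith [log_three]) hL3 _)
  have hcast : ∀ t : ℤ, t.natAbs ≤ 2 ^ (C * S ^ κ) →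
      |(t : ℝ)| ≤ Real.exp (Real.log H ^ (m + (K + 1) * κ)) := by
    intro t ht
    refine le_trans ?_ hfin
    have h1 : |(t : ℝ)| = (t.natAbs : ℝ) := by rw [Nat.cast_natAbs]; push_cast; rfl
    rw [h1]
    exact_mod_cast ht
  exact ⟨hcast _ b1, hcast _ b2, hcast _ b3⟩

/-- **The terms of an `S`-solution are bounded in terms of its bases** -/
theorem result :
    (∀ S T : Finset ℕ, ∃ κ : ℕ, ∀ (H : ℝ) (a b c x y z : ℤ) (p q r : ℕ), 3 ≤ H →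
      Solution a b c x y z p q r → |(x : ℝ)| ≤ H → |(y : ℝ)| ≤ H → |(z : ℝ)| ≤ H →
      (∀ ℓ : ℕ, ℓ.Prime → (ℓ : ℤ) ∣ a * b * c → ℓ ∈ S) →
      (2 ∉ S ∨ ∃ ℓ ∈ T, ℓ.Prime ∧ (ℓ : ℤ) ∣ x * y * z) →
      Bounded (Real.exp (Real.log H ^ κ)) a b c x y z p q r) ∧
    ∀ k K : ℕ, ∃ κ : ℕ, ∀ (H : ℝ) (a b c x y z : ℤ) (p q r : ℕ), 3 ≤ H →
      Solution a b c x y z p q r → |(x : ℝ)| ≤ H → |(y : ℝ)| ≤ H → |(z : ℝ)| ≤ H →
      (∀ ℓ : ℕ, ℓ.Prime → (ℓ : ℤ) ∣ a → (ℓ : ℝ) ≤ Real.log H ^ K) →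
      (∃ ℓ : ℕ, ℓ.Prime ∧ (ℓ : ℤ) ∣ x ∧ (ℓ : ℝ) ≤ Real.log H ^ K) →
      Coefficient k H b → Coefficient k H c →
      Bounded (Real.exp (Real.log H ^ κ)) a b c x y z p q r := by
  classical
  refine ⟨fun S T => ?_, uniform⟩
  obtain ⟨κ, hκ⟩ := uniform S.card 1
  obtain ⟨M, hM⟩ : ∃ M : ℕ, M = 2 + ∑ ℓ ∈ S ∪ T, ℓ := ⟨_, rfl⟩
  have hMle : ∀ ℓ ∈ S ∪ T, ℓ ≤ M := by
    intro ℓ hℓ
    have h1 : ℓ ≤ ∑ i ∈ S ∪ T, i :=
      Finset.single_le_sum (f := fun i : ℕ => i) (fun i _ => Nat.zero_le i) hℓ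
    omega
  obtain ⟨m, hm⟩ := exists_pow ((M : ℝ) ^ κ)
  refine ⟨m + κ, ?_⟩
  intro H a b c x y z p q r hH hs hx hy hz hS hT
  obtain ⟨H', hH'⟩ : ∃ H', H' = max H (Real.exp M) := ⟨_, rfl⟩
  have hHH' : H ≤ H' := by rw [hH']; exact le_max_left _ _
  have hH3 : 3 ≤ H' := hH.trans hHH'
  have hH0 : 0 < H := by linarith
  have hH0' : 0 < H' := by linarith
  have hM2 : (2 : ℝ) ≤ M := by
    have : 2 ≤ M := by omega
    exact_mod_cast this
  have hL1 : 1 ≤ Real.log H :=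
    log_three.le.trans (Real.log_le_log (by norm_num) hH)
  have hlog : (M : ℝ) ≤ Real.log H' := by
    rw [Real.le_log_iff_exp_le hH0', hH']; exact le_max_right _ _
  have hlog' : Real.log H' ≤ M * Real.log H := by
    rw [hH']
    rcases le_total H (Real.exp M) with h | h
    · rw [max_eq_right h, Real.log_exp]
      nlinarith
    · rw [max_eq_left h]
      nlinarith
  have hMH' : (M : ℝ) ≤ H' := by
    have := Real.add_one_le_exp (M : ℝ)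
    have h2 : Real.exp M ≤ H' := by rw [hH']; exact le_max_right _ _
    linarith
  have hprime : ∀ ℓ ∈ S ∪ T, (ℓ : ℝ) ≤ Real.log H' ^ 1 := by
    intro ℓ hℓ
    rw [pow_one]
    refine le_trans ?_ hlog
    exact_mod_cast hMle ℓ hℓ
  have hbd : Real.exp (Real.log H' ^ κ) ≤ Real.exp (Real.log H ^ (m + κ)) := by
    apply Real.exp_le_exp.mpr
    have h0 : 0 ≤ Real.log H' := by linarith
    calc Real.log H' ^ κ ≤ (M * Real.log H) ^ κ := pow_le_pow_left₀ h0 hlog' _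
      _ = (M : ℝ) ^ κ * Real.log H ^ κ := mul_pow _ _ _
      _ ≤ Real.log H ^ m * Real.log H ^ κ := by
          apply mul_le_mul_of_nonneg_right _ (by positivity)
          refine hm.trans (pow_le_pow_left₀ (by linarith [log_three]) ?_ _)
          exact Real.log_le_log (by norm_num) hH
      _ = _ := by rw [pow_add]
  have hmono : ∀ {a b c x y z : ℤ} {p q r : ℕ},
      Bounded (Real.exp (Real.log H' ^ κ)) a b c x y z p q r →
      Bounded (Real.exp (Real.log H ^ (m + κ))) a b c x y z p q r :=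
    fun h => ⟨h.1.trans hbd, h.2.1.trans hbd, h.2.2.trans hbd⟩
  obtain ⟨heq, ha0, hb0, hc0, hx0, hy0, hz0, hp, hq, hr, hg⟩ := hs
  -- the coefficients
  have hcoef : ∀ u : ℤ, u ≠ 0 → (∀ ℓ : ℕ, ℓ.Prime → (ℓ : ℤ) ∣ u → ℓ ∈ S) →
      Coefficient S.card H' u := by
    intro u hu hd
    have hsub : u.natAbs.primeFactors ⊆ S := by
      intro ℓ hℓ
      exact hd ℓ (Nat.prime_of_mem_primeFactors hℓ)
        (Int.natCast_dvd.2 (Nat.dvd_of_mem_primeFactors hℓ))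
    have h1 : Gen u.natAbs.primeFactors.card M
        (∏ t ∈ u.natAbs.primeFactors, t ^ u.natAbs.factorization t) :=
      Gen.prod _ (fun t ht => ⟨(Nat.prime_of_mem_primeFactors ht).pos,
        hMle t (Finset.mem_union_left _ (hsub ht))⟩) _
    have h2 : ∏ t ∈ u.natAbs.primeFactors, t ^ u.natAbs.factorization t = u.natAbs :=
      Nat.prod_factorization_pow_eq_self (Int.natAbs_ne_zero.mpr hu)
    rw [h2] at h1
    obtain ⟨g, e, h3, h4⟩ := h1.mono (Finset.card_le_card hsub) (by omega)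
    refine ⟨g, e, fun i => ⟨(h3 i).1, ?_⟩, h4⟩
    have h5 : (g i : ℝ) ≤ M := by exact_mod_cast (h3 i).2
    linarith
  have hSa : ∀ ℓ : ℕ, ℓ.Prime → (ℓ : ℤ) ∣ a → ℓ ∈ S := fun ℓ h1 h2 =>
    hS ℓ h1 ((h2.mul_right b).mul_right c)
  have hSb : ∀ ℓ : ℕ, ℓ.Prime → (ℓ : ℤ) ∣ b → ℓ ∈ S := fun ℓ h1 h2 =>
    hS ℓ h1 ((h2.mul_left a).mul_right c)
  have hSc : ∀ ℓ : ℕ, ℓ.Prime → (ℓ : ℤ) ∣ c → ℓ ∈ S := fun ℓ h1 h2 =>
    hS ℓ h1 (h2.mul_left (a * b))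
  have hnb : ∀ ℓ : ℕ, ℓ.Prime → (ℓ : ℤ) ∣ -b → ℓ ∈ S := fun ℓ h1 h2 => hSb ℓ h1 ((dvd_neg).1 h2)
  have ca := hcoef a ha0 hSa
  have cb := hcoef b hb0 hSb
  have cc := hcoef c hc0 hSc
  have cnb := hcoef (-b) (neg_ne_zero.mpr hb0) hnb
  -- a small prime divides one of the bases
  have hex : ∃ ℓ : ℕ, ℓ.Prime ∧ (ℓ : ℤ) ∣ x * y * z ∧ (ℓ : ℝ) ≤ Real.log H' ^ 1 := by
    rcases hT with h | ⟨ℓ, h1, h2, h3⟩
    · refine ⟨2, Nat.prime_two, ?_, by rw [pow_one]; push_cast; linarith⟩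
      have hP : Prime (2 : ℤ) := Int.prime_two
      have hodd : ∀ {u : ℤ}, (∀ ℓ : ℕ, ℓ.Prime → (ℓ : ℤ) ∣ u → ℓ ∈ S) → ¬ (2 : ℤ) ∣ u :=
        fun hu hd => h (hu 2 Nat.prime_two (by exact_mod_cast hd))
      have ho : ∀ {u v : ℤ} {j : ℕ}, ¬ (2 : ℤ) ∣ u → ¬ (2 : ℤ) ∣ v → Odd (u * v ^ j) := by
        intro u v j h1 h2
        rw [← Int.not_even_iff_odd, even_iff_two_dvd]
        intro h3
        rcases hP.dvd_or_dvd h3 with h4 | h4
        · exact h1 h4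
        · exact h2 (hP.dvd_of_dvd_pow h4)
      by_contra hcon
      have n1 : ¬ (2 : ℤ) ∣ x := fun hd => hcon (by push_cast; exact (hd.mul_right y).mul_right z)
      have n2 : ¬ (2 : ℤ) ∣ y := fun hd => hcon (by push_cast; exact (hd.mul_left x).mul_right z)
      have n3 : ¬ (2 : ℤ) ∣ z := fun hd => hcon (by push_cast; exact hd.mul_left (x * y))
      have o1 := ho (j := p) (hodd hSa) n1
      have o2 := ho (j := q) (hodd hSb) n2
      have o3 := ho (j := r) (hodd hSc) n3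
      have : Even (c * z ^ r) := heq ▸ o1.add_odd o2
      exact (Int.not_even_iff_odd.2 o3) this
    · exact ⟨ℓ, h2, h3, hprime ℓ (Finset.mem_union_right _ h1)⟩
  obtain ⟨ℓ, hℓ, hd, hℓH⟩ := hex
  have hP : Prime (ℓ : ℤ) := Nat.prime_iff_prime_int.mp hℓ
  have hx' := hx.trans hHH'
  have hy' := hy.trans hHH'
  have hz' := hz.trans hHH'
  have hsm : ∀ {u : ℤ}, (∀ ℓ : ℕ, ℓ.Prime → (ℓ : ℤ) ∣ u → ℓ ∈ S) →
      ∀ ℓ : ℕ, ℓ.Prime → (ℓ : ℤ) ∣ u → (ℓ : ℝ) ≤ Real.log H' ^ 1 :=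
    fun hu ℓ h1 h2 => hprime ℓ (Finset.mem_union_left _ (hu ℓ h1 h2))
  rcases hP.dvd_or_dvd hd with hd | hd
  · rcases hP.dvd_or_dvd hd with hd | hd
    · exact hmono (hκ H' a b c x y z p q r hH3
        ⟨heq, ha0, hb0, hc0, hx0, hy0, hz0, hp, hq, hr, hg⟩ hx' hy' hz' (hsm hSa) ⟨ℓ, hℓ, hd, hℓH⟩
        cb cc)
    · have hg' : Int.gcd (b * y) (Int.gcd (a * x) (c * z)) = 1 := by
        rw [← hg, ← Int.gcd_assoc, ← Int.gcd_assoc, Int.gcd_comm (b * y) (a * x)]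
      have := hκ H' b a c y x z q p r hH3
        ⟨by rw [← heq]; ring, hb0, ha0, hc0, hy0, hx0, hz0, hq, hp, hr, hg'⟩ hy' hx' hz' (hsm hSb)
        ⟨ℓ, hℓ, hd, hℓH⟩ ca cc
      exact hmono ⟨this.2.1, this.1, this.2.2⟩
  · have hg' : Int.gcd (c * z) (Int.gcd (-b * y) (a * x)) = 1 := by
      rw [← hg, neg_mul, Int.neg_gcd, ← Int.gcd_assoc, Int.gcd_comm (c * z) (b * y), Int.gcd_comm]
    have := hκ H' c (-b) a z y x r q p hH3
      ⟨by rw [← heq]; ring, hc0, neg_ne_zero.mpr hb0, ha0, hz0, hy0, hx0, hr, hq, hp, hg'⟩ hz' hy' hx'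
      (hsm hSc) ⟨ℓ, hℓ, hd, hℓH⟩ cnb ca
    refine hmono ⟨this.2.2, ?_, this.1⟩
    have h1 := this.2.1
    rw [neg_mul, Int.cast_neg, abs_neg] at h1
    exact h1

end Pool.Agent.Results.MP_be1fae_nt.TermsBoundedByBases
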